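import Pool.Agent.H10.GM.Targets1

/-!
# Splitting a connected subcubic set: one piece
-/

set_option autoImplicit false

namespace Pool.Agent.H89.GM

open Pool.Agent.H55.GW Pool.Agent.H10.GM

/-- in a connected set `A` every component of `A \ {a}` contains a neighbour of `a` -/
theorem comp_nb {V : Type} {E : V → V → Prop} {A : Set V} {a y : V} (hA : Cn E A) (ha : a ∈ A)
    (hy : y ∈ A \ {a}) : ∃ u, RIn E (A \ {a}) y u ∧ E u a := by
  obtain ⟨u, v, h1, -, h3, h4, -⟩ := (hA.2 y hy.1 a ha).enter (T := {a}) hy.2 rfl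
  rw [Set.mem_singleton_iff] at h4
  subst h4
  exact ⟨u, h1, h3⟩

/-- the set without a component of `A \ {a}` is connected -/
theorem compl_cn {V : Type} {E : V → V → Prop} (hE : Sy E) {U A : Set V} {a y : V} (hA : Cn E A)
    (hAU : A ⊆ U) (ha : a ∈ A) (hor : U \ A = ∅ ∨ Cn E (U \ A))
    (hab : U \ A = ∅ ∨ ∃ b ∈ U \ A, E a b) : Cn E (U \ {z | RIn E (A \ {a}) y z}) := by
  have hsub : {z | RIn E (A \ {a}) y z} ⊆ A \ {a} := fun z hz => RIn.right_mem hz
  have haC : a ∉ {z | RIn E (A \ {a}) y z} := fun h => (hsub h).2 rfl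
  refine Cn.of_root hE (x := a) ⟨hAU ha, haC⟩ ?_
  rintro z ⟨hzU, hzC⟩
  by_cases hzA : z ∈ A
  · by_cases hza : z = a
    · rw [hza]
      exact RIn.refl ⟨hAU ha, haC⟩
    · have hz : z ∈ A \ {a} := ⟨hzA, hza⟩
      obtain ⟨u, hu, hua⟩ := comp_nb hA ha hz
      have h1 : RIn E {w | RIn E (A \ {a}) z w} u z :=
        (Cn.comp hE hz).2 u hu z (RIn.refl hz)
      have h2 : {w | RIn E (A \ {a}) z w} ⊆ U \ {z | RIn E (A \ {a}) y z} := by
        intro w hw
        refine ⟨hAU (RIn.right_mem hw).1, fun hw' => hzC ?_⟩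
        exact RIn.trans hw' (RIn.sy hE hw)
      exact RIn.head (hE u a hua) ⟨hAU ha, haC⟩ (h1.mono_set h2)
  · rcases hab with hab | ⟨b, hb, hEab⟩
    · exact absurd (show z ∈ U \ A from ⟨hzU, hzA⟩) (by rw [hab]; exact Set.notMem_empty z)
    · rcases hor with hor | hor
      · exact absurd hb (by rw [hor]; exact Set.notMem_empty b)
      · refine RIn.head hEab ⟨hAU ha, haC⟩ ((hor.2 b hb z ⟨hzU, hzA⟩).mono_set ?_)
        rintro w ⟨hw1, hw2⟩
        exact ⟨hw1, fun h => hw2 (hsub h).1⟩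

theorem pf_SPA : T_SPA := by
  classical
  intro k V _ E hE U X hk hU hdg hcard
  have hfin : {A : Set V | Cn E A ∧ A ⊆ U ∧ k ≤ (A ∩ X).ncard ∧
      (U \ A = ∅ ∨ Cn E (U \ A))}.Finite := Set.toFinite _
  obtain ⟨A, ⟨hA, hAU, hkA, hor⟩, hmin⟩ := hfin.exists_minimal
    ⟨U, hU, subset_rfl, by omega, Or.inl Set.sdiff_self⟩
  refine ⟨A, hA, hAU, hkA, ?_, hor⟩
  -- the vertex `a`
  have hex : ∃ a ∈ A, U \ A = ∅ ∨ ∃ b ∈ U \ A, E a b := by
    by_cases h : U \ A = ∅
    · obtain ⟨a, ha⟩ := hA.1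
      exact ⟨a, ha, Or.inl h⟩
    · obtain ⟨y, hy⟩ := Set.nonempty_iff_ne_empty.2 h
      obtain ⟨x, hx⟩ := hA.1
      obtain ⟨a, ha, b, hb, hab⟩ := Cn.touch_of_not_subset hU (hAU hx) hx hy.1 hy.2
      exact ⟨a, ha.2, Or.inr ⟨b, hb, hab⟩⟩
  obtain ⟨a, ha, hab⟩ := hex
  -- small components
  have hsmall : ∀ y, ({z | RIn E (A \ {a}) y z} ∩ X).ncard ≤ k - 1 := by
    intro y
    by_cases hy : y ∈ A \ {a}
    · by_contra hcon
      have hk' : k ≤ ({z | RIn E (A \ {a}) y z} ∩ X).ncard := by omega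
      have hsub : {z | RIn E (A \ {a}) y z} ⊆ A \ {a} := fun z hz => RIn.right_mem hz
      have h1 := hmin (y := {z | RIn E (A \ {a}) y z})
        ⟨Cn.comp hE hy, fun z hz => hAU (hsub hz).1, hk',
          Or.inr (compl_cn hE hA hAU ha hor hab)⟩ (fun z hz => (hsub hz).1)
      exact (hsub (h1 ha)).2 rfl
    · have h0 : {z | RIn E (A \ {a}) y z} ∩ X = ∅ := by
        ext z
        constructor
        · rintro ⟨hz, -⟩
          exact absurd (RIn.left_mem hz) hy
        · exact fun h => absurd h (Set.notMem_empty z)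
      rw [h0, Set.ncard_empty]
      exact Nat.zero_le _
  -- counting
  have hN : {v | v ∈ U ∧ E a v}.Finite := Set.toFinite _
  have hN3 : hN.toFinset.card ≤ 3 := by
    rw [← Set.ncard_eq_toFinset_card _ hN]
    exact hdg a (hAU ha)
  have hF : ∀ y, ({z | RIn E (A \ {a}) y z} ∩ X).Finite := fun y => Set.toFinite _
  have hAX : (A ∩ X).Finite := Set.toFinite _
  have hcov : hAX.toFinset ⊆ insert a (hN.toFinset.biUnion fun y => (hF y).toFinset) := by
    intro z hz
    rw [Set.Finite.mem_toFinset] at hz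
    rw [Finset.mem_insert, Finset.mem_biUnion]
    by_cases hza : z = a
    · exact Or.inl hza
    · right
      have hz' : z ∈ A \ {a} := ⟨hz.1, hza⟩
      obtain ⟨u, hu, hua⟩ := comp_nb hA ha hz'
      refine ⟨u, ?_, ?_⟩
      · rw [Set.Finite.mem_toFinset]
        exact ⟨hAU (RIn.right_mem hu).1, hE u a hua⟩
      · rw [Set.Finite.mem_toFinset]
        exact ⟨RIn.sy hE hu, hz.2⟩
  have h2 : (hN.toFinset.biUnion fun y => (hF y).toFinset).card ≤
      hN.toFinset.card * (k - 1) := by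
    refine Finset.card_biUnion_le_card_mul _ _ _ fun y _ => ?_
    rw [← Set.ncard_eq_toFinset_card _ (hF y)]
    exact hsmall y
  have h3 : hN.toFinset.card * (k - 1) ≤ 3 * (k - 1) := Nat.mul_le_mul_right _ hN3
  have h4 : (A ∩ X).ncard ≤ (hN.toFinset.biUnion fun y => (hF y).toFinset).card + 1 := by
    rw [Set.ncard_eq_toFinset_card _ hAX]
    exact (Finset.card_le_card hcov).trans (Finset.card_insert_le _ _)
  omega

end Pool.Agent.H89.GM
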